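import Mathlib
import Pool.Agent.H.MP_55e6a3_gt.A

set_option autoImplicit false

namespace Pool.Agent.H.MP_a06b07_gt

open Set Filter Topology Cardinal Pool.Agent.H.MP_55e6a3_gt

abbrev C : Type := ℕ × Finset ℕ

inductive T : Type
  | leaf (a : I) : T
  | node (a : I) (f : C → T) : T

def ξ : T → I
  | T.leaf a => a
  | T.node a _ => a

theorem hc : Nonempty (I ↪ (ℕ → Bool)) := by
  rw [← Cardinal.le_def]; simp [aleph0_lt_continuum]

noncomputable def e : T → List C → ℕ → Bool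
  | T.leaf a, _ => fun j => Nat.casesOn j false (hc.some a)
  | T.node a _, [] => fun j => Nat.casesOn j true (hc.some a)
  | T.node _ f, c :: l => e (f c) l

theorem einj (s : T) : ∀ t, e s = e t → s = t := by
  induction s with
  | leaf a =>
    rintro (b | ⟨b, g⟩) h
    · rw [hc.some.injective (funext fun j => congrFun (congrFun h []) (j + 1) : hc.some a = hc.some b)]
    · simpa [e] using congrFun (congrFun h []) 0
  | node a f ih =>
    rintro (b | ⟨b, g⟩) h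
    · simpa [e] using congrFun (congrFun h []) 0
    · rw [hc.some.injective (funext fun j => congrFun (congrFun h []) (j + 1) : hc.some a = hc.some b),
        (funext fun c => ih c _ (funext fun l => congrFun h (c :: l)) : f = g)]

noncomputable def u : ℕ → List C × ℕ := (exists_surjective_nat _).choose

noncomputable def p (t : T) (n : ℕ) : Bool := e t (u n).1 (u n).2

theorem pinj : Function.Injective p := fun s t h => einj s t (funext fun l => funext fun j => by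
  obtain ⟨n, hn⟩ : ∃ n, u n = (l, j) := (exists_surjective_nat _).choose_spec (l, j)
  simpa [p, hn] using congrFun h n)

noncomputable def tr (t : T) (k : ℕ) : C := (k, (Finset.range k).filter (p t · = true))

theorem tre {s t : T} {k : ℕ} (h : tr s k = tr t k) {j : ℕ} (hj : j < k) : p s j = p t j := by
  simpa [tr, hj] using Finset.ext_iff.1 (congrArg Prod.snd h) j

noncomputable def K : T → ℕ → Set T
  | T.leaf a, _ => {T.leaf a}
  | T.node a f, n => insert (T.node a f) (⋃ k ≥ n, {s | (a < ξ (f (tr (T.node a f) k)) ∧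
      tr (f (tr (T.node a f) k)) k = tr (T.node a f) k) ∧ s ∈ K (f (tr (T.node a f) k)) k})

theorem k1 (t : T) (n : ℕ) : t ∈ K t n := by
  cases t
  exacts [rfl, Or.inl rfl]

theorem k2 (t : T) {n m : ℕ} (h : n ≤ m) : K t m ⊆ K t n := by
  cases t
  · exact subset_rfl
  · exact insert_subset_insert (biUnion_subset_biUnion_left fun k hk => h.trans hk)

theorem k3 (t : T) : ∀ n, ∀ s ∈ K t n, (∀ j < n, p s j = p t j) ∧ (s = t ∨ ξ t < ξ s) ∧
    ∃ m, K s m ⊆ K t n := by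
  induction t with
  | leaf a => rintro n _ rfl; exact ⟨fun _ _ => rfl, Or.inl rfl, n, subset_rfl⟩
  | node a f ih =>
    rintro n s (rfl | hs)
    · exact ⟨fun _ _ => rfl, Or.inl rfl, n, subset_rfl⟩
    obtain ⟨k, h1, h2, h3⟩ := mem_iUnion₂.1 hs
    obtain ⟨h4, h5, m, h6⟩ := ih _ k s h3
    refine ⟨fun j hj => (h4 j (hj.trans_le h1)).trans (tre h2.2 (hj.trans_le h1)), Or.inr ?_, m,
      fun x hx => Or.inr (mem_iUnion₂.2 ⟨k, h1, h2, h6 hx⟩)⟩
    rcases h5 with h5 | h5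
    · rw [h5]; exact h2.1
    · exact h2.1.trans h5

instance : TopologicalSpace T where
  IsOpen U := ∀ t ∈ U, ∃ n, K t n ⊆ U
  isOpen_univ _ _ := ⟨0, subset_univ _⟩
  isOpen_inter U V hU hV t ht := by
    obtain ⟨n, h1⟩ := hU t ht.1
    obtain ⟨m, h2⟩ := hV t ht.2
    exact ⟨max n m, subset_inter ((k2 t (le_max_left _ _)).trans h1)
      ((k2 t (le_max_right _ _)).trans h2)⟩
  isOpen_sUnion S h t := fun ⟨U, h1, h2⟩ =>
    let ⟨n, h3⟩ := h U h1 t h2
    ⟨n, h3.trans (subset_sUnion_of_mem h1)⟩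

theorem op {U : Set T} : IsOpen U ↔ ∀ t ∈ U, ∃ n, K t n ⊆ U := Iff.rfl

theorem ko (t : T) (n : ℕ) : IsOpen (K t n) := op.2 fun s hs => (k3 t n s hs).2.2

theorem pc : Continuous p := continuous_pi fun j => continuous_discrete_rng.2 fun _ =>
  op.2 fun t ht => ⟨j + 1, fun s hs => ((k3 t _ s hs).1 j j.lt_succ_self).trans ht⟩

instance : T2Space T := T2Space.of_injective_continuous pinj pc

theorem kc (t : T) : ∀ n, IsCompact (K t n) := by
  induction t with
  | leaf a => exact fun _ => isCompact_singleton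
  | node a f ih =>
    intro n
    refine isCompact_iff_ultrafilter_le_nhds'.2 fun F hF => ?_
    by_cases h : ↑F ≤ 𝓝 (T.node a f)
    · exact ⟨_, k1 _ _, h⟩
    obtain ⟨U, u1, u2, u3⟩ : ∃ U, T.node a f ∈ U ∧ IsOpen U ∧ U ∉ F := by
      simpa [le_nhds_iff] using h
    obtain ⟨m, hm⟩ := op.1 u2 _ u1
    have h1 : ⋃ k ∈ Ico n m, {s | (a < ξ (f (tr (T.node a f) k)) ∧
        tr (f (tr (T.node a f) k)) k = tr (T.node a f) k) ∧ s ∈ K (f (tr (T.node a f) k)) k} ∈ F := by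
      refine mem_of_superset (inter_mem hF (F.compl_mem_iff_notMem.2 u3)) ?_
      rintro s ⟨rfl | hs, h1⟩
      · exact absurd u1 h1
      obtain ⟨k, h2, h3⟩ := mem_iUnion₂.1 hs
      exact mem_biUnion (x := k) ⟨h2, not_le.1 fun h4 =>
        h1 (hm (Or.inr (mem_iUnion₂.2 ⟨k, h4, h3⟩)))⟩ h3
    obtain ⟨k, h2, h3⟩ := (F.finite_biUnion_mem_iff (finite_Ico n m)).1 h1
    obtain ⟨s, h4, -⟩ := F.nonempty_of_mem h3
    obtain ⟨x, x1, x2⟩ := isCompact_iff_ultrafilter_le_nhds'.1 (ih _ k) F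
      (mem_of_superset h3 fun _ h => h.2)
    exact ⟨x, Or.inr (mem_iUnion₂.2 ⟨k, h2.1, h4, x1⟩), x2⟩

instance : WeaklyLocallyCompactSpace T :=
  ⟨fun t => ⟨_, kc t 0, (ko t 0).mem_nhds (k1 t 0)⟩⟩

theorem nd (D : ℕ → Set T) (h : ∀ t, ∃ n, t ∈ D n) :
    ∃ n, ∃ t ∈ D n, ∀ U, IsOpen U → t ∈ U → ∃ s ∈ D n ∩ U, s ≠ t := by
  have h1 : ∀ c : C, ∃ η, ∀ y ∈ D (Nat.unpair c.1).1, tr y c.1 = c → η < ξ y → ∀ δ,
      ∃ z ∈ D (Nat.unpair c.1).1, tr z c.1 = c ∧ δ < ξ z := fun c => by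
    by_cases h : ∀ δ, ∃ z ∈ D (Nat.unpair c.1).1, tr z c.1 = c ∧ δ < ξ z
    · exact ⟨Classical.arbitrary I, fun _ _ _ _ => h⟩
    · push Not at h
      obtain ⟨δ, h⟩ := h
      exact ⟨δ, fun y y1 y2 y3 => absurd y3 (h y y1 y2).not_gt⟩
  choose η h1 using h1
  obtain ⟨δ, hδ⟩ := bddI (countable_range η)
  have h2 : ∀ c : C, ∃ z, (∃ z ∈ D (Nat.unpair c.1).1, tr z c.1 = c ∧ δ < ξ z) →
      z ∈ D (Nat.unpair c.1).1 ∧ tr z c.1 = c ∧ δ < ξ z := fun c => by
    by_cases h : ∃ z ∈ D (Nat.unpair c.1).1, tr z c.1 = c ∧ δ < ξ z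
    · exact h.imp fun z hz _ => hz
    · exact ⟨T.leaf δ, fun h1 => absurd h1 h⟩
  choose g h2 using h2
  obtain ⟨m, hm⟩ := h (T.node δ g)
  refine ⟨m, _, hm, fun U u1 u2 => ?_⟩
  obtain ⟨n, hn⟩ := op.1 u1 _ u2
  obtain ⟨h3, h4, h5⟩ := h2 (tr (T.node δ g) (Nat.pair m n)) (h1 _ (T.node δ g)
    (by simpa [tr] using hm) rfl (hδ _ (mem_range_self _)) δ)
  exact ⟨_, ⟨by simpa [tr] using h3, hn (Or.inr (mem_iUnion₂.2
    ⟨Nat.pair m n, Nat.right_le_pair _ _, ⟨h5, h4⟩, k1 _ _⟩))⟩, fun h => by simp [h, ξ] at h5⟩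

def ρ : OnePoint T → WithBot I := fun x => x.elim ⊥ fun t => ξ t

theorem ls : ∃ r : OnePoint T → OnePoint T → Prop, IsWellOrder _ r ∧
    ∀ x, IsOpen {y | ¬ r y x} := by
  have h := (RelEmbedding.preimage (⟨fun x => (ρ x, x), fun _ _ h => congrArg Prod.snd h⟩ :
    OnePoint T ↪ WithBot I × OnePoint T) (Prod.Lex (· < ·) WellOrderingRel)).isWellOrder
  refine ⟨_, h, fun x => ?_⟩
  induction x using OnePoint.rec with
  | infty =>
    refine (eq_univ_of_forall fun y h1 => ?_ : {y | ¬ _} = Set.univ) ▸ isOpen_univ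
    induction y using OnePoint.rec with
    | infty => exact irrefl_of _ _ h1
    | coe t => exact asymm_of _ h1 (Prod.Lex.left _ _ (WithBot.bot_lt_coe _))
  | coe t =>
    refine (OnePoint.isOpen_iff_of_notMem (not_not.2 (Prod.Lex.left _ _ (WithBot.bot_lt_coe _)))).2
      (op.2 fun s hs => ⟨0, fun y hy h1 => ?_⟩)
    rcases (k3 s 0 y hy).2.1 with rfl | h2
    · exact hs h1
    · exact hs (trans_of _ (Prod.Lex.left _ _ (WithBot.coe_lt_coe.2 h2)) h1)

end Pool.Agent.H.MP_a06b07_gt
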